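import Pool.Agent.H.MP_259edd_an.B
set_option autoImplicit false

namespace Pool.Agent.Results.MP_259edd_an.Yes
open Set

universe u v

/-- `N` is a complete `p`-norm on the real vector space `X`. -/
structure IsPBanach (p : ℝ) (X : Type u) [AddCommGroup X] [Module ℝ X] (N : X → ℝ) : Prop where
  nonneg : ∀ x, 0 ≤ N x
  eq_zero : ∀ x, N x = 0 → x = 0
  smul : ∀ (t : ℝ) (x : X), N (t • x) = |t| * N x
  tri : ∀ x y, N (x + y) ^ p ≤ N x ^ p + N y ^ p
  complete : ∀ w : ℕ → X, (∀ ε > 0, ∃ k, ∀ m ≥ k, ∀ n ≥ k, N (w m - w n) < ε) →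
    ∃ x, ∀ ε > 0, ∃ k, ∀ n ≥ k, N (w n - x) < ε

/-- The closed linear span of `δ '' K` for the quasi-norm `N`. -/
def cspan {M : Type v} {X : Type u} [AddCommGroup X] [Module ℝ X] (N : X → ℝ) (δ : M → X)
    (K : Set M) : Set X :=
  {x | ∀ ε > 0, ∃ y ∈ Submodule.span ℝ (δ '' K), N (x - y) < ε}

/-- `(X, N, δ)` is the Lipschitz free `p`-space over the pointed metric space `(M, o)`. -/
structure IsFree (p : ℝ) {M : Type v} [MetricSpace M] (o : M) (X : Type u) [AddCommGroup X]
    [Module ℝ X] (N : X → ℝ) (δ : M → X) : Prop where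
  banach : IsPBanach p X N
  base : δ o = 0
  isom : ∀ x y, N (δ x - δ y) = dist x y
  dense : ∀ x, x ∈ cspan N δ Set.univ
  lift : ∀ (Y : Type u) [AddCommGroup Y] [Module ℝ Y] (NY : Y → ℝ), IsPBanach p Y NY →
    ∀ (f : M → Y) (L : ℝ), 0 ≤ L → f o = 0 → (∀ x y, NY (f x - f y) ≤ L * dist x y) →
    ∃ T : X →ₗ[ℝ] Y, (∀ x, T (δ x) = f x) ∧ ∀ x, NY (T x) ≤ L * N x

theorem result (p : ℝ) (hp0 : 0 < p) (hp1 : p < 1) (M : Type v) [MetricSpace M]
    [CompleteSpace M] (o : M) (X : Type u) [AddCommGroup X] [Module ℝ X] (N : X → ℝ) (δ : M → X)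
    (hF : IsFree p o X N δ) (K : ℕ → Set M) (hK : ∀ n, IsClosed (K n))
    (hmono : ∀ n, K (n + 1) ⊆ K n) :
    ⋂ n, cspan N δ (K n) ⊆ cspan N δ (⋂ n, K n) := by
  have hB := hF.banach
  have N0 : N 0 = 0 := by simpa using hB.smul 0 0
  letI : NormedAddCommGroup X := AddGroupNorm.toNormedAddCommGroup
    { toFun := fun x => N x ^ p
      map_zero' := by simp [N0, Real.zero_rpow hp0.ne']
      add_le' := hB.tri
      neg' := fun x => by
        have := hB.smul (-1) x
        simp only [neg_smul, one_smul, abs_neg, abs_one, one_mul] at this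
        simp [this]
      eq_zero_of_map_eq_zero' := fun x hx =>
        hB.eq_zero x ((Real.rpow_eq_zero (hB.nonneg x) hp0.ne').mp hx) }
  have hn : ∀ x : X, ‖x‖ = N x ^ p := fun _ => rfl
  have lt1 : ∀ (a ε : ℝ), 0 ≤ a → 0 < ε → (a ^ p < ε ^ p ↔ a < ε) := fun a ε ha hε =>
    Real.rpow_lt_rpow_iff ha hε.le hp0
  have lt2 : ∀ (a ε : ℝ), 0 ≤ a → 0 < ε → (a ^ p < ε ↔ a < ε ^ (1 / p)) := fun a ε ha hε => by
    rw [← lt1 a _ ha (by positivity), ← Real.rpow_mul hε.le, one_div_mul_cancel hp0.ne',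
      Real.rpow_one]
  have lt3 : ∀ (a ε : ℝ), 0 ≤ a → 0 < ε → (a ^ (1 / p) < ε ↔ a < ε ^ p) := fun a ε ha hε => by
    rw [← lt1 _ ε (by positivity) hε, ← Real.rpow_mul ha, one_div_mul_cancel hp0.ne',
      Real.rpow_one]
  have inv1 : ∀ a : ℝ, 0 ≤ a → (a ^ (1 / p)) ^ p = a := fun a ha => by
    rw [← Real.rpow_mul ha, one_div_mul_cancel hp0.ne', Real.rpow_one]
  have inv2 : ∀ a : ℝ, 0 ≤ a → (a ^ p) ^ (1 / p) = a := fun a ha => by
    rw [← Real.rpow_mul ha, mul_one_div_cancel hp0.ne', Real.rpow_one]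
  haveI : CompleteSpace X := Metric.complete_of_cauchySeq_tendsto (fun w hw => by
    obtain ⟨x, hx⟩ := hB.complete w (fun ε hε => by
      obtain ⟨k, hk⟩ := Metric.cauchySeq_iff.mp hw (ε ^ p) (by positivity)
      refine ⟨k, fun m hm n hn' => ?_⟩
      have := hk m hm n hn'
      rwa [dist_eq_norm, hn, lt1 _ _ (hB.nonneg _) hε] at this)
    refine ⟨x, Metric.tendsto_atTop.mpr (fun ε hε => ?_)⟩
    obtain ⟨k, hk⟩ := hx (ε ^ (1 / p)) (by positivity)
    exact ⟨k, fun n hn' => by rw [dist_eq_norm, hn, lt2 _ _ (hB.nonneg _) hε]; exact hk n hn'⟩)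
  have hcs : ∀ S : Set M,
      cspan N δ S = closure ((Submodule.span ℝ (δ '' S) : Submodule ℝ X) : Set X) := by
    intro S
    ext x
    rw [Metric.mem_closure_iff]
    constructor
    · intro h ε hε
      obtain ⟨y, hy, hxy⟩ := h (ε ^ (1 / p)) (by positivity)
      exact ⟨y, hy, by rw [dist_eq_norm, hn, lt2 _ _ (hB.nonneg _) hε]; exact hxy⟩
    · intro h ε hε
      obtain ⟨y, hy, hxy⟩ := h (ε ^ p) (by positivity)
      exact ⟨y, hy, by rwa [dist_eq_norm, hn, lt1 _ _ (hB.nonneg _) hε] at hxy⟩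
  have c : Pool.Agent.H.MP_259edd_an.Ctx p o δ :=
    { hp := hp0
      hom := fun t x => by rw [hn, hn, hB.smul, Real.mul_rpow (abs_nonneg _) (hB.nonneg _)]
      h0 := hF.base
      iso := fun x y => by rw [hn, hF.isom]
      dense := fun x => by
        have := hF.dense x
        rwa [hcs, image_univ] at this
      univ := by
        intro Y _ _ _ hY f C hC hf0 hf
        have hYB : IsPBanach p Y (fun y => ‖y‖ ^ (1 / p)) :=
          { nonneg := fun y => by positivity
            eq_zero := fun y hy =>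
              norm_eq_zero.mp ((Real.rpow_eq_zero (norm_nonneg y) (by positivity)).mp hy)
            smul := fun t y => by
              rw [hY, Real.mul_rpow (by positivity) (norm_nonneg _), inv2 _ (abs_nonneg t)]
            tri := fun x y => by
              rw [inv1 _ (norm_nonneg _), inv1 _ (norm_nonneg _), inv1 _ (norm_nonneg _)]
              exact norm_add_le _ _
            complete := fun w hw => by
              have : CauchySeq w := Metric.cauchySeq_iff.mpr (fun ε hε => by
                obtain ⟨k, hk⟩ := hw (ε ^ (1 / p)) (by positivity)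
                refine ⟨k, fun m hm n hn' => ?_⟩
                have := hk m hm n hn'
                rw [Real.rpow_lt_rpow_iff (norm_nonneg _) hε.le (by positivity)] at this
                rwa [dist_eq_norm])
              obtain ⟨x, hx⟩ := cauchySeq_tendsto_of_complete this
              refine ⟨x, fun ε hε => ?_⟩
              obtain ⟨k, hk⟩ := Metric.tendsto_atTop.mp hx (ε ^ p) (by positivity)
              refine ⟨k, fun n hn' => ?_⟩
              rw [lt3 _ _ (norm_nonneg _) hε, ← dist_eq_norm]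
              exact hk n hn' }
        obtain ⟨T, hT, hb⟩ := hF.lift Y _ hYB f (C ^ (1 / p)) (by positivity) hf0 (fun x y => by
          have := Real.rpow_le_rpow (norm_nonneg _) (hf x y) (by positivity : 0 ≤ 1 / p)
          rwa [Real.mul_rpow hC (by positivity), inv2 _ dist_nonneg] at this)
        refine ⟨T, hT, fun x => ?_⟩
        have := Real.rpow_le_rpow (by positivity) (hb x) hp0.le
        rwa [inv1 _ (norm_nonneg _), Real.mul_rpow (by positivity) (hB.nonneg _), inv1 _ hC,
          ← hn] at this }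
  intro μ hμ
  rw [hcs]
  exact c.inter K hK (fun n => by rw [← hcs]; exact mem_iInter.mp hμ n)

end Pool.Agent.Results.MP_259edd_an.Yes
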